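import Pool.Agent.W780.BB.Stm
import Pool.Agent.W174.PG.Basic

/-!
Project BB, task ALT: alternating crossings of two sides take some time.  If `ξ k` is the angle
between the side `u k` and the direction of motion, then `s k = sin (ξ k)` is positive and
`s (k+2) = 2 c s (k+1) - s k` with `c = - cos Δ`, `Δ` the angle between the two sides; for `c < 1`
this can only hold for a bounded number of steps, and for `c = 1` the sides are parallel.
-/

set_option autoImplicit false

namespace W327.BB

open Complex Set Pool.Agent.W780.PG Pool.Agent.W780.BB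

open scoped Real ComplexConjugate

variable {n : ℕ}

/-- positive solutions of the recurrence are short -/
theorem short {c : ℝ} (hc : c < 1) (s : ℕ → ℝ) (m : ℕ) (hs : ∀ k, k < m → 0 < s k)
    (hr : ∀ k, k + 2 < m → s (k + 2) = 2 * c * s (k + 1) - s k) :
    m < Nat.ceil (1 / (1 - c)) + 4 := by
  by_contra hcon
  push Not at hcon
  have hc' : 0 < 1 - c := by linarith
  have key : ∀ k, k + 2 < m → s (k + 2) ≤ (2 - 2 * (1 - c) * k) * s (k + 1) := by
    intro k
    induction k with
    | zero =>
      intro h
      rw [hr 0 h]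
      have h0 := hs 0 (by omega)
      have h1 := hs 1 (by omega)
      push_cast
      rw [zero_add] at *
      nlinarith
    | succ k ih =>
      intro h
      have h1 := ih (by omega)
      have p1 := hs (k + 1) (by omega)
      have p2 := hs (k + 2) (by omega)
      rw [hr (k + 1) h]
      set q := 2 - 2 * (1 - c) * (k : ℝ) with hq
      have hq2 : 2 - 2 * (1 - c) * ((k + 1 : ℕ) : ℝ) = q - 2 * (1 - c) := by
        rw [hq]; push_cast; ring
      rw [hq2]
      have e : k + 1 + 1 = k + 2 := rfl
      rw [e]
      have h3 : (2 - q) * s (k + 2) ≤ s (k + 1) := by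
        rcases le_or_gt (2 - q) 0 with h4 | h4
        · nlinarith
        · have h5 : (2 - q) * s (k + 2) ≤ (2 - q) * (q * s (k + 1)) :=
            mul_le_mul_of_nonneg_left h1 h4.le
          nlinarith [sq_nonneg (q - 1)]
      nlinarith
  set K := Nat.ceil (1 / (1 - c)) with hK
  have h1 := key (K + 1) (by omega)
  have p1 := hs (K + 1 + 1) (by omega)
  have p2 := hs (K + 1 + 2) (by omega)
  have h2 : 1 / (1 - c) ≤ K := Nat.le_ceil _
  have h3 : 1 ≤ (1 - c) * K := by
    rw [div_le_iff₀ hc'] at h2; linarith
  have h4 : 2 - 2 * (1 - c) * ((K + 1 : ℕ) : ℝ) ≤ 0 := by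
    push_cast; nlinarith
  have h5 : (2 - 2 * (1 - c) * ((K + 1 : ℕ) : ℝ)) * s (K + 1 + 1) ≤ 0 :=
    mul_nonpos_of_nonpos_of_nonneg h4 p1.le
  linarith

theorem side_dir (p : Fin (n + 3) → ℂ) (i : Fin (n + 3)) :
    p (i + 1) - p i = (‖p (i + 1) - p i‖ : ℝ) • dir (tau p i) := by
  unfold dir tau
  rw [real_smul]
  exact (norm_mul_exp_arg_mul_I _).symm

/-- the side function along a line -/
theorem sf_add (p : Fin (n + 3) → ℂ) (i : Fin (n + 3)) (z : ℂ) (s θ : ℝ) :
    sf p i (z + s • dir θ) = sf p i z + s * ‖p (i + 1) - p i‖ * Real.sin (θ - tau p i) := by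
  have h : sf p i (z + s • dir θ) = sf p i z + (conj (p (i + 1) - p i) * (s • dir θ)).im := by
    unfold sf lft
    rw [← add_im, ← mul_add]
    congr 2; ring
  rw [h, side_dir p i]
  congr 1
  have hn : ‖((‖p (i + 1) - p i‖ : ℝ) • dir (tau p i) : ℂ)‖ = ‖p (i + 1) - p i‖ := by
    rw [← side_dir]
  rw [hn]
  unfold dir
  rw [real_smul, real_smul, map_mul, conj_ofReal, ← exp_conj, map_mul, conj_ofReal, conj_I]
  have e : ((‖p (i + 1) - p i‖ : ℝ) : ℂ) * cexp ((tau p i : ℂ) * -I) * ((s : ℂ) * cexp ((θ : ℂ) * I)) =
      ((s * ‖p (i + 1) - p i‖ : ℝ) : ℂ) * cexp (((θ - tau p i : ℝ) : ℂ) * I) := by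
    push_cast
    rw [show ((θ : ℂ) - (tau p i : ℂ)) * I = (tau p i : ℂ) * -I + (θ : ℂ) * I by ring, exp_add]
    ring
  rw [e, im_ofReal_mul, exp_ofReal_mul_I_im]

theorem alt : S_Alt := by
  intro n p hp
  have hB := Pool.Agent.W174.PG.basic n p hp
  obtain ⟨hinj, -, -, -, -, -, -, -, -, -, -, -, hside, -⟩ := hB
  have hL : ∀ i, 0 < ‖p (i + 1) - p i‖ := by
    intro i
    rw [norm_pos_iff, sub_ne_zero]
    intro h
    exact Pool.Agent.W174.PG.i1 i (hinj h)
  have pair : ∀ i j : Fin (n + 3), ∃ (N : ℕ) (d : ℝ), 0 < d ∧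
      ∀ (u : ℕ → Fin (n + 3)) (y : ℕ → ℂ) (θ l : ℕ → ℝ) (m : ℕ),
      (∀ k ≤ m, y k ∈ side p (u k)) →
      (∀ k < m, 0 < l k ∧ y (k + 1) = y k + l k • dir (θ k) ∧
        θ (k + 1) = 2 * tau p (u (k + 1)) - θ k ∧ u (k + 1) ≠ u k) →
      (∀ k, k + 2 ≤ m → u (k + 2) = u k) → u 0 = i → u 1 = j → N ≤ m → ∃ k < m, d ≤ l k := by
    intro i j
    by_cases hij : i = j
    · refine ⟨1, 1, one_pos, ?_⟩
      intro u y θ l m _ hst _ h0 h1 hm
      exact absurd (by rw [h0, zero_add, h1, hij]) (hst 0 (by omega)).2.2.2
    · set c := -Real.cos (tau p i - tau p j) with hcdef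
      by_cases hc : c < 1
      · refine ⟨Nat.ceil (1 / (1 - c)) + 4, 1, one_pos, ?_⟩
        intro u y θ l m hy hst hu h0 h1 hm
        exfalso
        -- the angle between consecutive sides
        have hcos : ∀ k, k < m → -Real.cos (tau p (u k) - tau p (u (k + 1))) = c := by
          intro k
          induction k with
          | zero => intro _; rw [h0, zero_add, h1]
          | succ k ih =>
            intro hk
            rw [← ih (by omega), show k + 1 + 1 = k + 2 from rfl, hu k (by omega),
              ← Real.cos_neg, neg_sub]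
        refine absurd (short hc (fun k => Real.sin (θ k - tau p (u k))) m ?_ ?_) (by omega)
        · intro k hk
          obtain ⟨hl, hyk, -, huk⟩ := hst k hk
          have e1 := sf_add p (u k) (y k) (l k) (θ k)
          rw [← hyk] at e1
          have e2 : sf p (u k) (y k) = 0 := (hside (u k) (y k) (hy k hk.le)).2.1
          have e3 : 0 < sf p (u k) (y (k + 1)) :=
            (hside (u (k + 1)) (y (k + 1)) (hy (k + 1) hk)).2.2 (u k) huk.symm
          rw [e1, e2, zero_add] at e3
          have e4 : 0 < l k * ‖p (u k + 1) - p (u k)‖ := mul_pos hl (hL _)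
          exact (mul_pos_iff_of_pos_left e4).1 e3
        · intro k hk
          have t1 := (hst k (by omega)).2.2.1
          have t2 := (hst (k + 1) (by omega)).2.2.1
          rw [show k + 1 + 1 = k + 2 from rfl] at t2
          rw [← hcos k (by omega), t2, t1, hu k (by omega)]
          set A := tau p (u k)
          set B := tau p (u (k + 1))
          have g1 : Real.sin (2 * A - (2 * B - θ k) - A) = Real.sin ((θ k - B) + (A - B)) := by
            congr 1; ring
          have g2 : Real.sin (2 * B - θ k - B) = - Real.sin (θ k - B) := by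
            rw [← Real.sin_neg]; congr 1; ring
          have g3 : Real.sin (θ k - A) = Real.sin ((θ k - B) - (A - B)) := by
            congr 1; ring
          rw [g1, g2, g3, Real.sin_add (θ k - B) (A - B), Real.sin_sub (θ k - B) (A - B)]
          ring
      · -- parallel sides
        have hcos : Real.cos (tau p i - tau p j) = -1 := by
          have := Real.neg_one_le_cos (tau p i - tau p j)
          push Not at hc
          linarith
        have hsin : Real.sin (tau p j - tau p i) = 0 := by
          have h1 := Real.sin_sq_add_cos_sq (tau p i - tau p j)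
          rw [hcos] at h1
          have h2 : Real.sin (tau p i - tau p j) = 0 := by nlinarith
          rw [← neg_sub, Real.sin_neg, h2, neg_zero]
        have hconst : ∀ z ∈ side p j, sf p i z = sf p i (p j) := by
          intro z hz
          unfold side at hz
          rw [openSegment_eq_image_lineMap] at hz
          obtain ⟨t, -, rfl⟩ := hz
          rw [AffineMap.lineMap_apply, vsub_eq_sub, vadd_eq_add, side_dir p j, smul_smul, add_comm,
            sf_add, hsin, mul_zero, add_zero]
        have hmid : (midpoint ℝ (p j) (p (j + 1))) ∈ side p j := by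
          unfold side
          exact midpoint_mem_openSegment _ _
        have hcpos : 0 < sf p i (p j) := by
          rw [← hconst _ hmid]
          exact (hside j _ hmid).2.2 i hij
        refine ⟨1, sf p i (p j) / ‖p (i + 1) - p i‖, div_pos hcpos (hL i), ?_⟩
        intro u y θ l m hy hst hu h0 h1 hm
        refine ⟨0, by omega, ?_⟩
        obtain ⟨hl, hyk, -, huk⟩ := hst 0 (by omega)
        rw [zero_add] at hyk huk
        have e1 := sf_add p i (y 0) (l 0) (θ 0)
        rw [← hyk] at e1
        have e2 : sf p i (y 0) = 0 := by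
          have := (hside (u 0) (y 0) (hy 0 (by omega))).2.1
          rw [h0] at this; exact this
        have e3 : sf p i (y 1) = sf p i (p j) := by
          apply hconst
          have := hy 1 hm
          rwa [h1] at this
        rw [e3, e2, zero_add] at e1
        rw [div_le_iff₀ (hL i), e1]
        exact mul_le_of_le_one_right (mul_pos hl (hL i)).le (Real.sin_le_one _)
  choose N d hd hN using pair
  obtain ⟨a, ha⟩ := Finite.exists_max (fun x : Fin (n + 3) × Fin (n + 3) => N x.1 x.2)
  obtain ⟨b, hb⟩ := Finite.exists_min (fun x : Fin (n + 3) × Fin (n + 3) => d x.1 x.2)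
  refine ⟨N a.1 a.2, d b.1 b.2, hd _ _, ?_⟩
  intro u y θ l m hy hst hu hm
  obtain ⟨k, hk, h⟩ := hN (u 0) (u 1) u y θ l m hy hst hu rfl rfl ((ha (u 0, u 1)).trans hm)
  exact ⟨k, hk, (hb (u 0, u 1)).trans h⟩

end W327.BB
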